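import Pool.Agent.H607R3.PS.Stmts
import Pool.Agent.Helper834.EC.Dim1

set_option autoImplicit false

/-! Project H607-PS, task Dim. -/

namespace H51R3.PS

open Pool.Agent.H607R3.PS IsLocalRing

variable {T : Type} [CommRing T] {α β γ : T}

/-- the first coordinate -/
def rho : RR T α β γ →+* T where
  toFun u := u.a
  map_one' := rfl
  map_zero' := rfl
  map_mul' _ _ := rfl
  map_add' _ _ := rfl

theorem rho_apply (u : RR T α β γ) : rho u = u.a := rfl

theorem mul_s (v : RR T α β γ) : (v * RR.s : RR T α β γ) = ⟨v.a * γ, 0, -v.a⟩ := by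
  ext <;> simp [RR.s] <;> ring

theorem rho_gens (i : Fin 7) :
    rho (gens (RR.x : RR T α β γ) RR.y RR.z RR.w RR.s i) ∈ (Ideal.span {α, β} : Ideal T) := by
  have hx : rho (RR.x : RR T α β γ) = 0 := rfl
  have hw : rho (RR.w : RR T α β γ) = 0 := rfl
  have hy : rho (RR.y : RR T α β γ) = -α := rfl
  have hz : rho (RR.z : RR T α β γ) = β := rfl
  have hs : rho (RR.s : RR T α β γ) = γ := rfl
  have ha : α ∈ (Ideal.span {α, β} : Ideal T) := Ideal.subset_span (by simp)
  have hb : β ∈ (Ideal.span {α, β} : Ideal T) := Ideal.subset_span (by simp)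
  fin_cases i
  · change rho ((RR.y : RR T α β γ) ^ 3) ∈ _
    rw [map_pow, hy]
    have : (-α) ^ 3 = (-α ^ 2) * α := by ring
    rw [this]
    exact Ideal.mul_mem_left _ _ ha
  · change rho ((RR.z : RR T α β γ) ^ 2) ∈ _
    rw [map_pow, hz, pow_two]
    exact Ideal.mul_mem_left _ _ hb
  · change rho ((RR.y : RR T α β γ) ^ 2 * (RR.z + RR.w ^ 2)) ∈ _
    rw [map_mul, map_pow, hy]
    have : ∀ t : T, (-α) ^ 2 * t = (α * t) * α := fun t => by ring
    rw [this]
    exact Ideal.mul_mem_left _ _ ha
  · change rho ((RR.x : RR T α β γ) ^ 2 + RR.s ^ 2 * RR.z) ∈ _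
    rw [map_add, map_pow, hx, map_mul, hz]
    have : ∀ t : T, (0 : T) ^ 2 + t * β = t * β := fun t => by ring
    rw [this]
    exact Ideal.mul_mem_left _ _ hb
  · change rho ((RR.w : RR T α β γ) ^ 4 + RR.s * RR.y * RR.z) ∈ _
    rw [map_add, map_pow, hw, map_mul, hz]
    have : ∀ t : T, (0 : T) ^ 4 + t * β = t * β := fun t => by ring
    rw [this]
    exact Ideal.mul_mem_left _ _ hb
  · change rho ((RR.x : RR T α β γ) * (RR.z + RR.w ^ 3) + RR.s ^ 2 * RR.y) ∈ _
    rw [map_add, map_mul, hx, map_mul, hy]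
    have : ∀ t u : T, (0 : T) * t + u * (-α) = (-u) * α := fun t u => by ring
    rw [this]
    exact Ideal.mul_mem_left _ _ ha
  · change rho ((RR.y : RR T α β γ) * RR.w ^ 2 * (RR.z + RR.w) + RR.s * RR.y ^ 2) ∈ _
    rw [map_add, map_mul, map_mul, map_mul, map_pow, map_pow, hy]
    have : ∀ t u v : T, (-α) * t * u + v * (-α) ^ 2 = (v * α - t * u) * α := fun t u v => by ring
    rw [this]
    exact Ideal.mul_mem_left _ _ ha

theorem taskDim : TaskDim := by
  intro T _ _ _ _ α β γ hB
  have hint : Algebra.IsIntegral T (RR T α β γ) := inferInstance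
  have h1 : ringKrullDim (RR T α β γ) ≤ 3 := by
    rw [← hB.dim]
    exact Pool.Agent.Helper834.EC.ringKrullDim_le_of_integral
  have h2 : (3 : WithBot ℕ∞) ≤ Module.supportDim (RR T α β γ)
      (RR T α β γ ⧸ (Ideal.span {RR.s} : Ideal (RR T α β γ))) := by
    rw [Module.supportDim_quotient_eq_ringKrullDim, ← hB.dim]
    have hint2 : Algebra.IsIntegral T
        (RR T α β γ ⧸ (Ideal.span {RR.s} : Ideal (RR T α β γ))) := inferInstance
    refine Pool.Agent.Helper834.EC.ringKrullDim_ge_of_integral ?_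
    rw [injective_iff_map_eq_zero]
    intro t ht
    have ht' : Ideal.Quotient.mk (Ideal.span {RR.s} : Ideal (RR T α β γ))
        (algebraMap T (RR T α β γ) t) = 0 := ht
    rw [Ideal.Quotient.eq_zero_iff_mem, Ideal.mem_span_singleton'] at ht'
    obtain ⟨v, hv⟩ := ht'
    rw [mul_s, RR.algebraMap_eq] at hv
    have e1 := congrArg RR.c hv
    have e2 := congrArg RR.a hv
    rw [RR.emb_c] at e1
    rw [RR.emb_a] at e2
    have e3 : v.a = 0 := by
      have : -v.a = 0 := e1
      exact neg_eq_zero.1 this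
    rw [← e2]
    change v.a * γ = 0
    rw [e3, zero_mul]
  have h3 : (1 : WithBot ℕ∞) ≤ Module.supportDim (RR T α β γ)
      (RR T α β γ ⧸ cI (RR.x : RR T α β γ) RR.y RR.z RR.w RR.s) := by
    rw [Module.supportDim_quotient_eq_ringKrullDim]
    have h4 : (1 : WithBot ℕ∞) ≤ ringKrullDim (T ⧸ (Ideal.span {α, β} : Ideal T)) := by
      rw [ringKrullDim_quotient]
      have hle : (Ideal.span {α, β} : Ideal T) ≤ maximalIdeal T := by
        rw [hB.max]
        apply Ideal.span_mono
        intro t ht
        rw [Set.mem_insert_iff, Set.mem_singleton_iff] at ht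
        rcases ht with rfl | rfl <;> simp
      have hγ : γ ∈ maximalIdeal T := by
        rw [hB.max]
        exact Ideal.subset_span (by simp)
      let P : PrimeSpectrum T := ⟨Ideal.span {α, β}, hB.prime2⟩
      let Q : PrimeSpectrum T := closedPoint T
      have hPQ : P < Q := by
        refine lt_of_le_of_ne hle ?_
        intro h
        apply hB.notMem
        have h5 : (Ideal.span {α, β} : Ideal T) = maximalIdeal T := congrArg PrimeSpectrum.asIdeal h
        rw [h5]
        exact hγ
      let p : LTSeries (PrimeSpectrum.zeroLocus (((Ideal.span {α, β} : Ideal T)) : Set T)) :=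
        { length := 1
          toFun := ![⟨P, fun _ h => h⟩, ⟨Q, hle⟩]
          step := by
            intro i
            fin_cases i
            exact hPQ }
      exact Order.LTSeries.length_le_krullDim p
    refine h4.trans ?_
    refine ringKrullDim_le_of_surjective (Ideal.Quotient.lift
      (cI (RR.x : RR T α β γ) RR.y RR.z RR.w RR.s)
      ((Ideal.Quotient.mk (Ideal.span {α, β} : Ideal T)).comp rho) ?_) ?_
    · intro u hu
      have hle : cI (RR.x : RR T α β γ) RR.y RR.z RR.w RR.s ≤
          RingHom.ker ((Ideal.Quotient.mk (Ideal.span {α, β} : Ideal T)).comp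
            (rho : RR T α β γ →+* T)) := by
        unfold cI
        rw [Ideal.span_le]
        rintro _ ⟨i, rfl⟩
        rw [SetLike.mem_coe, RingHom.mem_ker, RingHom.comp_apply, Ideal.Quotient.eq_zero_iff_mem]
        exact rho_gens i
      exact hle hu
    · intro t
      obtain ⟨t, rfl⟩ := Ideal.Quotient.mk_surjective t
      exact ⟨Ideal.Quotient.mk _ (RR.emb t), rfl⟩
  calc ringKrullDim (RR T α β γ) ≤ 3 := h1
    _ < 1 + 3 := by
      have : (1 : WithBot ℕ∞) + 3 = 4 := by norm_num
      rw [this]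
      exact_mod_cast (by decide : (3 : ℕ) < 4)
    _ ≤ _ := add_le_add h3 h2

end H51R3.PS
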