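import Pool.Agent.H51R3.PS.Stmts51
import Pool.Agent.H51R3.PS.TaskDim
import Pool.Agent.H607R3.PS.RegR
import Pool.Agent.H607R3.PS.Grade

set_option autoImplicit false

/-! Common facts for the example of project H607-PS. -/

namespace H51R3.PS

open Pool.Agent.H607R3.PS IsLocalRing

section Base

variable {T : Type} [CommRing T] [IsLocalRing T] [IsNoetherianRing T] [IsDomain T] {α β γ : T}

theorem injA (T : Type) [CommRing T] (α β γ : T) : Function.Injective (algebraMap T
    (RR T α β γ ⧸ (Ideal.span {RR.s} : Ideal (RR T α β γ)))) := by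
  rw [injective_iff_map_eq_zero]
  intro t ht
  have ht' : Ideal.Quotient.mk (Ideal.span {RR.s} : Ideal (RR T α β γ))
      (algebraMap T (RR T α β γ) t) = 0 := ht
  rw [Ideal.Quotient.eq_zero_iff_mem, Ideal.mem_span_singleton'] at ht'
  obtain ⟨v, hv⟩ := ht'
  rw [mul_s, RR.algebraMap_eq] at hv
  have e1 := congrArg RR.c hv
  have e2 := congrArg RR.a hv
  rw [RR.emb_c] at e1
  rw [RR.emb_a] at e2
  have e3 : v.a = 0 := by
    have : -v.a = 0 := e1
    exact neg_eq_zero.1 this
  rw [← e2]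
  change v.a * γ = 0
  rw [e3, zero_mul]

theorem dimR (hB : Base T α β γ) : ringKrullDim (RR T α β γ) ≤ 3 := by
  rw [← hB.dim]
  have hint : Algebra.IsIntegral T (RR T α β γ) := inferInstance
  exact Pool.Agent.Helper834.EC.ringKrullDim_le_of_integral

theorem dimA (hB : Base T α β γ) : (3 : WithBot ℕ∞) ≤
    ringKrullDim (RR T α β γ ⧸ (Ideal.span {RR.s} : Ideal (RR T α β γ))) := by
  rw [← hB.dim]
  have hint2 : Algebra.IsIntegral T
      (RR T α β γ ⧸ (Ideal.span {RR.s} : Ideal (RR T α β γ))) := inferInstance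
  exact Pool.Agent.Helper834.EC.ringKrullDim_ge_of_integral (injA T α β γ)

theorem dimN (hB : Base T α β γ) : (1 : WithBot ℕ∞) ≤
    ringKrullDim (RR T α β γ ⧸ cI (RR.x : RR T α β γ) RR.y RR.z RR.w RR.s) := by
  have h4 : (1 : WithBot ℕ∞) ≤ ringKrullDim (T ⧸ (Ideal.span {α, β} : Ideal T)) := by
    rw [ringKrullDim_quotient]
    have hle : (Ideal.span {α, β} : Ideal T) ≤ maximalIdeal T := by
      rw [hB.max]
      apply Ideal.span_mono
      intro t ht
      rw [Set.mem_insert_iff, Set.mem_singleton_iff] at ht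
      rcases ht with rfl | rfl <;> simp
    have hγ : γ ∈ maximalIdeal T := by
      rw [hB.max]
      exact Ideal.subset_span (by simp)
    let P : PrimeSpectrum T := ⟨Ideal.span {α, β}, hB.prime2⟩
    let Q : PrimeSpectrum T := closedPoint T
    have hPQ : P < Q := by
      refine lt_of_le_of_ne hle ?_
      intro h
      apply hB.notMem
      have h5 : (Ideal.span {α, β} : Ideal T) = maximalIdeal T := congrArg PrimeSpectrum.asIdeal h
      rw [h5]
      exact hγ
    let p : LTSeries (PrimeSpectrum.zeroLocus (((Ideal.span {α, β} : Ideal T)) : Set T)) :=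
      { length := 1
        toFun := ![⟨P, fun _ h => h⟩, ⟨Q, hle⟩]
        step := by
          intro i
          fin_cases i
          exact hPQ }
    exact Order.LTSeries.length_le_krullDim p
  refine h4.trans ?_
  refine ringKrullDim_le_of_surjective (Ideal.Quotient.lift
    (cI (RR.x : RR T α β γ) RR.y RR.z RR.w RR.s)
    ((Ideal.Quotient.mk (Ideal.span {α, β} : Ideal T)).comp rho) ?_) ?_
  · intro u hu
    have hle : cI (RR.x : RR T α β γ) RR.y RR.z RR.w RR.s ≤
        RingHom.ker ((Ideal.Quotient.mk (Ideal.span {α, β} : Ideal T)).comp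
          (rho : RR T α β γ →+* T)) := by
      unfold cI
      rw [Ideal.span_le]
      rintro _ ⟨i, rfl⟩
      rw [SetLike.mem_coe, RingHom.mem_ker, RingHom.comp_apply, Ideal.Quotient.eq_zero_iff_mem]
      exact rho_gens i
    exact hle hu
  · intro t
    obtain ⟨t, rfl⟩ := Ideal.Quotient.mk_surjective t
    exact ⟨Ideal.Quotient.mk _ (RR.emb t), rfl⟩

theorem mem_max (hB : Base T α β γ) : α ∈ maximalIdeal T ∧ β ∈ maximalIdeal T ∧
    γ ∈ maximalIdeal T := by
  rw [hB.max]
  exact ⟨Ideal.subset_span (by simp), Ideal.subset_span (by simp), Ideal.subset_span (by simp)⟩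

/-- the exact sequence over `RR` -/
theorem exR (hB : Base T α β γ) : Ex (d1L (RR.x : RR T α β γ) RR.y RR.z RR.w RR.s)
    (d2L (RR.x : RR T α β γ) RR.y RR.z RR.w RR.s)
    (d3L (RR.x : RR T α β γ) RR.y RR.z RR.w RR.s) := by
  have hr : Reg3 (((RR.x : RR T α β γ) - RR.y) ^ 4) (RR.z ^ 2) ((RR.s + RR.w) ^ 4) := by
    rw [RR.x_sub_y, RR.z_eq, RR.s_add_w, ← map_pow, ← map_pow, ← map_pow]
    exact reg_RR hB.reg
  obtain ⟨h3, h2, h1⟩ := exact_all (RR.x : RR T α β γ) RR.y RR.z RR.w RR.s RR.xy RR.xs RR.ws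
    (isUnit_one_sub_w (mem_max hB).2.2) hr
  exact ⟨d1d2 _ _ _ _ _ RR.xy RR.xs RR.ws, d2d3 _ _ _ _ _ RR.xy RR.xs RR.ws, h3, h2, h1⟩

/-- the exact sequence over `RR/(s)` -/
theorem exA (hreg : TaskRegA) (hB : Base T α β γ) :
    Ex (d1L (Ideal.Quotient.mk (Ideal.span {RR.s} : Ideal (RR T α β γ)) RR.x)
      (Ideal.Quotient.mk _ RR.y) (Ideal.Quotient.mk _ RR.z) (Ideal.Quotient.mk _ RR.w)
      (Ideal.Quotient.mk _ RR.s))
    (d2L (Ideal.Quotient.mk (Ideal.span {RR.s} : Ideal (RR T α β γ)) RR.x)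
      (Ideal.Quotient.mk _ RR.y) (Ideal.Quotient.mk _ RR.z) (Ideal.Quotient.mk _ RR.w)
      (Ideal.Quotient.mk _ RR.s))
    (d3L (Ideal.Quotient.mk (Ideal.span {RR.s} : Ideal (RR T α β γ)) RR.x)
      (Ideal.Quotient.mk _ RR.y) (Ideal.Quotient.mk _ RR.z) (Ideal.Quotient.mk _ RR.w)
      (Ideal.Quotient.mk _ RR.s)) := by
  set π := Ideal.Quotient.mk (Ideal.span {RR.s} : Ideal (RR T α β γ)) with hπ
  have hxy : π RR.x * π RR.y = π RR.z * π RR.w := by rw [← map_mul, RR.xy, map_mul]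
  have hxs : π RR.x * π RR.s = 0 := by rw [← map_mul, RR.xs, map_zero]
  have hws : π RR.w * π RR.s = 0 := by rw [← map_mul, RR.ws, map_zero]
  have hu : IsUnit (1 - π RR.w) := by
    have h := (isUnit_one_sub_w (α := α) (β := β) (mem_max hB).2.2).map π
    rwa [map_sub, map_one] at h
  have e1 : π RR.x - π RR.y = π (RR.emb α) := by rw [← map_sub, RR.x_sub_y]
  have e2 : π RR.s + π RR.w = π (RR.emb γ) := by rw [← map_add, RR.s_add_w]
  have hr : Reg3 ((π RR.x - π RR.y) ^ 4) (π RR.z ^ 2) ((π RR.s + π RR.w) ^ 4) := by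
    rw [e1, e2, RR.z_eq]
    exact hreg T α β γ hB.reg
  obtain ⟨h3, h2, h1⟩ := exact_all (π RR.x) (π RR.y) (π RR.z) (π RR.w) (π RR.s) hxy hxs hws hu hr
  exact ⟨d1d2 _ _ _ _ _ hxy hxs hws, d2d3 _ _ _ _ _ hxy hxs hws, h3, h2, h1⟩

end Base

section Compat

variable {R S : Type} [CommRing R] [CommRing S] (f : R →+* S) (x y z w s : R)

theorem d1L_apply (v : Fin 7 → R) : d1L x y z w s v = d1f x y z w s v := rfl
theorem d2L_apply (v : Fin 10 → R) : d2L x y z w s v = d2f x y z w s v := rfl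
theorem d3L_apply (v : Fin 4 → R) : d3L x y z w s v = d3f x y z w s v := rfl

theorem compat1 (v : Fin 7 → R) :
    d1L (f x) (f y) (f z) (f w) (f s) (fun i => f (v i)) = f (d1L x y z w s v) := by
  rw [d1L_apply, d1L_apply]
  simp only [d1f, map_add, map_mul, map_pow]

theorem compat2 (v : Fin 10 → R) :
    d2L (f x) (f y) (f z) (f w) (f s) (fun i => f (v i)) = fun j => f (d2L x y z w s v j) := by
  rw [d2L_apply, d2L_apply]
  funext j
  fin_cases j <;> simp [d2f]

theorem compat3 (v : Fin 4 → R) :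
    d3L (f x) (f y) (f z) (f w) (f s) (fun i => f (v i)) = fun j => f (d3L x y z w s v j) := by
  rw [d3L_apply, d3L_apply]
  funext j
  fin_cases j <;> simp [d3f]

end Compat

end H51R3.PS
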