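import Pool.Agent.H607R3.PS.Stmts

set_option autoImplicit false

/-!
Project H51-PS4: four more problems (S02000, S01064, S02868, MP_07e2b8_al) settled by the example of
project H607-PS.  Task statements.
-/

namespace H51R3.PS

open Pool.Agent.H607R3.PS CategoryTheory CategoryTheory.Limits

/-- the hypotheses of `TaskRes`: an exact sequence `0 -> R^n3 -> R^n2 -> R^n1 -> R` -/
structure Ex {R : Type} [CommRing R] {n1 n2 n3 : ℕ} (d1 : (Fin n1 → R) →ₗ[R] R)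
    (d2 : (Fin n2 → R) →ₗ[R] (Fin n1 → R)) (d3 : (Fin n3 → R) →ₗ[R] (Fin n2 → R)) : Prop where
  z1 : ∀ u, d1 (d2 u) = 0
  z2 : ∀ u, d2 (d3 u) = 0
  inj : Function.Injective d3
  ex2 : ∀ v, d2 v = 0 → ∃ u, d3 u = v
  ex1 : ∀ v, d1 v = 0 → ∃ u, d2 u = v

/-- projective dimension finite, as in the frozen statements of MP_799861_al -/
def PDFin (R N : Type) [CommRing R] [AddCommGroup N] [Module R N] : Prop :=
  ∃ (P : ℕ → ModuleCat.{0} R) (d : ∀ i : ℕ, (P (i + 1)) →ₗ[R] (P i))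
          (ε : (P 0) →ₗ[R] N),
        (∀ i, Module.Projective R (P i)) ∧ Function.Surjective ε ∧
        LinearMap.range (d 0) = LinearMap.ker ε ∧
        (∀ i, LinearMap.range (d (i + 1)) = LinearMap.ker (d i)) ∧
        ∃ n : ℕ, ∀ i, n ≤ i → Subsingleton (P i)

/-- TASK PD: the exact sequence gives an explicit finite projective resolution. -/
def TaskPD : Prop :=
  ∀ (R : Type) [CommRing R] (n1 n2 n3 : ℕ) (d1 : (Fin n1 → R) →ₗ[R] R)
    (d2 : (Fin n2 → R) →ₗ[R] (Fin n1 → R)) (d3 : (Fin n3 → R) →ₗ[R] (Fin n2 → R)),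
    Ex d1 d2 d3 → PDFin R (R ⧸ (LinearMap.range d1 : Ideal R))

/-- TASK TorFin: finite projective dimension implies that Tor vanishes eventually. -/
def TaskTorFin : Prop :=
  ∀ (R : Type) [CommRing R] (M N : Type) [AddCommGroup M] [Module R M] [AddCommGroup N]
    [Module R N], FinRes R N → ∃ n : ℕ, ∀ i : ℕ, n ≤ i →
      IsZero (((CategoryTheory.Tor (ModuleCat.{0} R) i).obj (ModuleCat.of R M)).obj
        (ModuleCat.of R N))

/-- TASK Tor: if the reduction modulo `J` of the exact sequence is exact then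
`Tor_i (R/J, R/range d1) = 0` for `i > 0`. -/
def TaskTor : Prop :=
  ∀ (R : Type) [CommRing R] (J : Ideal R) (n1 n2 n3 : ℕ) (d1 : (Fin n1 → R) →ₗ[R] R)
    (d2 : (Fin n2 → R) →ₗ[R] (Fin n1 → R)) (d3 : (Fin n3 → R) →ₗ[R] (Fin n2 → R))
    (e1 : (Fin n1 → R ⧸ J) →ₗ[R ⧸ J] (R ⧸ J))
    (e2 : (Fin n2 → R ⧸ J) →ₗ[R ⧸ J] (Fin n1 → R ⧸ J))
    (e3 : (Fin n3 → R ⧸ J) →ₗ[R ⧸ J] (Fin n2 → R ⧸ J)),
    (∀ v, e1 (fun i => Ideal.Quotient.mk J (v i)) = Ideal.Quotient.mk J (d1 v)) →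
    (∀ v, e2 (fun i => Ideal.Quotient.mk J (v i)) = fun j => Ideal.Quotient.mk J (d2 v j)) →
    (∀ v, e3 (fun i => Ideal.Quotient.mk J (v i)) = fun j => Ideal.Quotient.mk J (d3 v j)) →
    Ex d1 d2 d3 → Ex e1 e2 e3 → ∀ i : ℕ, 0 < i →
      IsZero (((CategoryTheory.Tor (ModuleCat.{0} R) i).obj (ModuleCat.of R (R ⧸ J))).obj
        (ModuleCat.of R (R ⧸ (LinearMap.range d1 : Ideal R))))

/-- TASK FL: modules of finite length have dimension at most zero. -/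
def TaskFL : Prop :=
  ∀ (R : Type) [CommRing R] [IsNoetherianRing R] (X : Type) [AddCommGroup X] [Module R X],
    IsFiniteLength R X → ringKrullDim (R ⧸ Module.annihilator R X) ≤ 0

/-- TASK RegA: the regularity package for `RR/(s)`. -/
def TaskRegA : Prop :=
  ∀ (T : Type) [CommRing T] (α β γ : T), Reg3 (α ^ 4) (β ^ 2) (γ ^ 4) →
    Reg3 (Ideal.Quotient.mk (Ideal.span {RR.s} : Ideal (RR T α β γ)) (RR.emb α) ^ 4)
      (Ideal.Quotient.mk (Ideal.span {RR.s} : Ideal (RR T α β γ)) (RR.emb β) ^ 2)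
      (Ideal.Quotient.mk (Ideal.span {RR.s} : Ideal (RR T α β γ)) (RR.emb γ) ^ 4)

end H51R3.PS
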